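import Pool.Agent.K3h85.AS.LOG
import Pool.Agent.K3h46.AS.Stm2

/-!
# The dimension of the space of the logarithmic `G`
-/

set_option autoImplicit false
set_option linter.style.haveILetI false

namespace Pool.Agent.K3h93.AS

open Polynomial Pool.Agent.K3h46.AS UniqueFactorizationMonoid

/-- the residue of `H` modulo an irreducible factor `ψ` of `φ` -/
theorem exists_res {p : ℕ} [Fact p.Prime] {F : Type} [Field F] [CharP F p] {D ψ H : F[X]}
    (hψ : Irreducible ψ) (hD : ¬ ψ ∣ D) (hH : ψ ∣ H ^ p - D ^ (p - 1) * H) :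
    ∃ n : ZMod p, ψ ∣ H - ZMod.castHom (dvd_refl p) F[X] n * D := by
  have hp1 : 1 ≤ p := (Fact.out : p.Prime).one_lt.le
  haveI : Fact (Irreducible ψ) := ⟨hψ⟩
  haveI : CharP (AdjoinRoot ψ) p := charP_of_injective_ringHom (AdjoinRoot.of ψ).injective p
  have hD' : AdjoinRoot.mk ψ D ≠ 0 := by
    intro h1
    exact hD (AdjoinRoot.mk_eq_zero.1 h1)
  have hK : (AdjoinRoot.mk ψ H) ^ p = (AdjoinRoot.mk ψ D) ^ (p - 1) * AdjoinRoot.mk ψ H := by
    have h1 := AdjoinRoot.mk_eq_zero.2 hH
    rw [map_sub, map_mul, map_pow, map_pow, sub_eq_zero] at h1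
    exact h1
  have hz : (AdjoinRoot.mk ψ H / AdjoinRoot.mk ψ D) ^ p =
      AdjoinRoot.mk ψ H / AdjoinRoot.mk ψ D := by
    rw [div_pow, hK, div_eq_div_iff (pow_ne_zero _ hD') hD']
    have h1 : AdjoinRoot.mk ψ D ^ p = AdjoinRoot.mk ψ D ^ (p - 1) * AdjoinRoot.mk ψ D := by
      rw [← pow_succ, Nat.sub_add_cancel hp1]
    rw [h1]
    ring
  rw [← Subfield.mem_bot_iff_pow_eq_self, mem_bot_iff_intCast p] at hz
  obtain ⟨n, hn⟩ := hz
  refine ⟨(n : ZMod p), ?_⟩
  rw [← AdjoinRoot.mk_eq_zero, map_intCast, map_sub, map_mul, map_intCast, hn,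
    div_mul_cancel₀ _ hD', sub_self]

/-- a squarefree polynomial divides everything that its irreducible factors divide -/
theorem dvd_of_factors {F : Type} [Field F] {φ P : F[X]} (hφ : Squarefree φ) [DecidableEq F]
    (h : ∀ ψ ∈ normalizedFactors φ, ψ ∣ P) : φ ∣ P := by
  classical
  by_cases hP : P = 0
  · rw [hP]; exact dvd_zero _
  have hφ0 : φ ≠ 0 := hφ.ne_zero
  rw [dvd_iff_normalizedFactors_le_normalizedFactors hφ0 hP,
    Multiset.le_iff_subset ((squarefree_iff_nodup_normalizedFactors hφ0).1 hφ)]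
  intro ψ hψ
  have h1 := (mem_normalizedFactors_iff' hφ0).1 hψ
  exact (mem_normalizedFactors_iff' hP).2 ⟨h1.1, h1.2.1, h ψ hψ⟩

theorem t_DIM : S_DIM := by
  classical
  intro p _ F _ _ _ φ hsq hd hdp _ s G hG hlin
  have hp1 : 1 ≤ p := (Fact.out : p.Prime).one_lt.le
  have hφ0 : φ ≠ 0 := hsq.ne_zero
  -- the module structure
  have hsm : ∀ (n : ZMod p) (f : F[X]), n • f = n.val • f := by
    intro n f
    rw [← Nat.cast_smul_eq_nsmul (ZMod p), ZMod.natCast_zmod_val]
  have hsm2 : ∀ (n : ZMod p) (f : F[X]), n • f = ZMod.castHom (dvd_refl p) F[X] n * f := by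
    intro n f
    rw [hsm, nsmul_eq_mul, ZMod.castHom_apply, ZMod.natCast_val]
  -- the derivative
  haveI : PerfectField F := PerfectRing.toPerfectField F p
  have hsep : φ.Separable := PerfectField.separable_iff_squarefree.2 hsq
  have hdF : (φ.natDegree : F) ≠ 0 := by
    intro h
    have := (CharP.cast_eq_zero_iff F p _).mp h
    exact absurd (Nat.le_of_dvd hd this) (not_le.2 hdp)
  have hc : (derivative φ).coeff (φ.natDegree - 1) ≠ 0 := by
    rw [coeff_derivative, Nat.sub_add_cancel hd]
    have h1 : ((φ.natDegree - 1 : ℕ) : F) + 1 = (φ.natDegree : F) := by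
      rw [← Nat.cast_add_one, Nat.sub_add_cancel hd]
    rw [h1]
    exact mul_ne_zero (leadingCoeff_ne_zero.mpr hφ0) hdF
  -- the family
  let H : Fin (s + 1) → F[X] := Fin.cons (derivative φ) G
  have hHlin : LinearIndependent (ZMod p) H := by
    rw [linearIndependent_finCons]
    refine ⟨hlin, fun hmem => hc ?_⟩
    refine Submodule.span_induction (p := fun x _ => x.coeff (φ.natDegree - 1) = 0)
      ?_ ?_ ?_ ?_ hmem
    · rintro _ ⟨j, rfl⟩
      exact coeff_eq_zero_of_degree_lt (hG j).1
    · exact coeff_zero _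
    · intro x y _ _ hx hy
      rw [coeff_add, hx, hy, add_zero]
    · intro n x _ hx
      rw [hsm, coeff_smul, hx, smul_zero]
  have hW : ((Nat.factorial (p - 1) : ℕ) : F[X]) = -1 := by
    have h1 := congrArg (ZMod.castHom (dvd_refl p) F[X]) (ZMod.wilsons_lemma p)
    rwa [map_natCast, map_neg, map_one] at h1
  have hHeq : ∀ j, φ ∣ H j ^ p - (derivative φ) ^ (p - 1) * H j := by
    intro j
    refine Fin.cases ?_ (fun j => ?_) j
    · show φ ∣ (derivative φ) ^ p - (derivative φ) ^ (p - 1) * derivative φ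
      rw [← pow_succ, Nat.sub_add_cancel hp1, sub_self]
      exact dvd_zero _
    · show φ ∣ G j ^ p - (derivative φ) ^ (p - 1) * G j
      obtain ⟨h, hh⟩ := Pool.Agent.K3h85.AS.iter_der φ (G j) (p - 1) (p - 1) le_rfl
      rw [Nat.descFactorial_self, hW, Nat.sub_self, pow_zero, one_mul, zero_add, pow_one] at hh
      have h1 := (hG j).2
      rw [hh] at h1
      exact ⟨-h, by linear_combination h1⟩
  have hHdeg : ∀ j, H j ∈ degreeLT F φ.natDegree := by
    intro j
    rw [mem_degreeLT]
    refine Fin.cases ?_ (fun j => ?_) j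
    · show (derivative φ).degree < _
      rw [← degree_eq_natDegree hφ0]
      exact degree_derivative_lt hφ0
    · show (G j).degree < _
      exact (hG j).1.trans_le (by exact_mod_cast Nat.sub_le _ _)
  -- the residues
  have hres : ∀ (j : Fin (s + 1)) (ψ : {ψ // ψ ∈ (normalizedFactors φ).toFinset}),
      ∃ n : ZMod p, (ψ : F[X]) ∣ H j - ZMod.castHom (dvd_refl p) F[X] n * derivative φ := by
    rintro j ⟨ψ, hψ⟩
    rw [Multiset.mem_toFinset] at hψ
    have h1 := (mem_normalizedFactors_iff' hφ0).1 hψ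
    refine exists_res h1.1 (fun h2 => h1.1.not_isUnit ?_) (h1.2.2.trans (hHeq j))
    exact hsep.isUnit_of_dvd' h1.2.2 h2
  choose c hcd using hres
  have hclin : LinearIndependent (ZMod p) c := by
    rw [Fintype.linearIndependent_iff]
    intro a ha
    have hP : ∑ j, a j • H j = 0 := by
      have hdvd : φ ∣ ∑ j, a j • H j := by
        refine dvd_of_factors hsq fun ψ hψ => ?_
        have e1 : ∑ j, a j • H j = ∑ j, ZMod.castHom (dvd_refl p) F[X] (a j) *
            (H j - ZMod.castHom (dvd_refl p) F[X] (c j ⟨ψ, Multiset.mem_toFinset.2 hψ⟩) *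
              derivative φ) := by
          have e2 : ∑ j, ZMod.castHom (dvd_refl p) F[X] (a j) *
              (ZMod.castHom (dvd_refl p) F[X] (c j ⟨ψ, Multiset.mem_toFinset.2 hψ⟩) *
                derivative φ) = 0 := by
            have h3 := congrFun ha ⟨ψ, Multiset.mem_toFinset.2 hψ⟩
            simp only [Finset.sum_apply, Pi.smul_apply, smul_eq_mul, Pi.zero_apply] at h3
            have h4 := congrArg (ZMod.castHom (dvd_refl p) F[X]) h3
            rw [map_sum, map_zero] at h4
            rw [← zero_mul (derivative φ), ← h4, Finset.sum_mul]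
            refine Finset.sum_congr rfl fun j _ => ?_
            rw [map_mul, mul_assoc]
          calc ∑ j, a j • H j = ∑ j, ZMod.castHom (dvd_refl p) F[X] (a j) * H j :=
                Finset.sum_congr rfl fun j _ => hsm2 _ _
            _ = ∑ j, ZMod.castHom (dvd_refl p) F[X] (a j) * H j - 0 := by rw [sub_zero]
            _ = _ := by
                rw [← e2, ← Finset.sum_sub_distrib]
                refine Finset.sum_congr rfl fun j _ => ?_
                rw [mul_sub]
        rw [e1]
        exact Finset.dvd_sum fun j _ => (hcd j _).mul_left _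
      have hmem : ∑ j, a j • H j ∈ degreeLT F φ.natDegree := by
        refine Submodule.sum_mem _ fun j _ => ?_
        rw [hsm]
        exact nsmul_mem (hHdeg j) _
      rw [mem_degreeLT, ← degree_eq_natDegree hφ0] at hmem
      exact eq_zero_of_dvd_of_degree_lt hdvd hmem
    exact Fintype.linearIndependent_iff.1 hHlin a hP
  have h1 := hclin.fintype_card_le_finrank
  rw [Fintype.card_fin, Module.finrank_fintype_fun_eq_card, Fintype.card_coe,
    Multiset.toFinset_card_of_nodup ((squarefree_iff_nodup_normalizedFactors hφ0).1 hsq)] at h1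
  refine h1.trans (le_of_eq ?_)
  show Multiset.card (Multiset.map normalize (factors φ)) = _
  rw [Multiset.card_map]

end Pool.Agent.K3h93.AS
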